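import Pool.Agent.Q204.UP.Lemmas

/-!
# Elements of monads without multiples in tilde-divisible monads
-/

namespace Pool.Agent.Results.MP_2734af_lc.NoMultipleInMonad

open Q204.UP Filter

/-- The odd primes as positive integers. -/
def oddPrimes : Set ℕ+ := {p | (p : ℕ).Prime ∧ (p : ℕ) ≠ 2}

theorem pw_inj {p m : ℕ+} {b c : ℕ} (hp : p ∈ oddPrimes) (hm : m ∈ oddPrimes)
    (h : p * 2 ^ b = m * 2 ^ c) : p = m ∧ b = c := by
  have h' : (p : ℕ) * 2 ^ b = (m : ℕ) * 2 ^ c := by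
    have := congrArg PNat.val h
    simpa using this
  have h1 : (p : ℕ) ∣ (m : ℕ) * 2 ^ c := h' ▸ dvd_mul_right _ _
  have h2 : (p : ℕ) = m := by
    rcases (hp.1.dvd_mul).1 h1 with h3 | h3
    · exact (Nat.prime_dvd_prime_iff_eq hp.1 hm.1).1 h3
    · exact absurd ((Nat.prime_dvd_prime_iff_eq hp.1 Nat.prime_two).1 (hp.1.dvd_of_dvd_pow h3)) hp.2
  refine ⟨PNat.coe_injective h2, ?_⟩
  rw [h2] at h'
  have h3 := Nat.eq_of_mul_eq_mul_left m.pos h'
  exact Nat.pow_right_injective le_rfl h3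

/-- the sets whose vertical sections below the diagonal are cofinite with a uniform bound, for
almost every `p` -/
def L (F : Ultrafilter ℕ+) : Filter (ℕ+ × ℕ) where
  sets := {S | ∃ N : ℕ, {p : ℕ+ | {b : ℕ | b ≤ (p : ℕ) ∧ (p, b) ∉ S}.ncard ≤ N} ∈ F}
  univ_sets := ⟨0, by simp; exact Filter.univ_mem⟩
  sets_of_superset := by
    rintro S T ⟨N, hN⟩ hST
    refine ⟨N, Filter.mem_of_superset hN fun p hp => ?_⟩
    refine le_trans (Set.ncard_le_ncard ?_ ?_) hp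
    · rintro b ⟨hb, hb2⟩
      exact ⟨hb, fun h => hb2 (hST h)⟩
    · exact (Set.finite_le_nat (p : ℕ)).subset fun b hb => hb.1
  inter_sets := by
    rintro S T ⟨N, hN⟩ ⟨K, hK⟩
    refine ⟨N + K, ?_⟩
    filter_upwards [hN, hK] with p h1 h2
    have h3 : {b : ℕ | b ≤ (p : ℕ) ∧ (p, b) ∉ S ∩ T} ⊆
        {b : ℕ | b ≤ (p : ℕ) ∧ (p, b) ∉ S} ∪ {b : ℕ | b ≤ (p : ℕ) ∧ (p, b) ∉ T} := by
      rintro b ⟨hb, hb2⟩
      by_cases h : (p, b) ∈ S
      · exact Or.inr ⟨hb, fun h' => hb2 ⟨h, h'⟩⟩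
      · exact Or.inl ⟨hb, h⟩
    have hf : ∀ S : Set (ℕ+ × ℕ), {b : ℕ | b ≤ (p : ℕ) ∧ (p, b) ∉ S}.Finite := fun S =>
      (Set.finite_le_nat (p : ℕ)).subset fun b hb => hb.1
    have h4 := Set.ncard_le_ncard h3 ((hf S).union (hf T))
    have h5 := Set.ncard_union_le {b : ℕ | b ≤ (p : ℕ) ∧ (p, b) ∉ S}
      {b : ℕ | b ≤ (p : ℕ) ∧ (p, b) ∉ T}
    have h1' : {b : ℕ | b ≤ (p : ℕ) ∧ (p, b) ∉ S}.ncard ≤ N := h1
    have h2' : {b : ℕ | b ≤ (p : ℕ) ∧ (p, b) ∉ T}.ncard ≤ K := h2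
    show {b : ℕ | b ≤ (p : ℕ) ∧ (p, b) ∉ S ∩ T}.ncard ≤ N + K
    omega

/-- **Answer.** There are ultrapower extensions, enlargements for all sets of cardinality at most
any prescribed cardinal, with ultrafilters `F`, `G` such that `F` tilde-divides `G` while some
element of the monad of `F` star-divides no element of the monad of `G`. -/
theorem result : ∀ κ : Cardinal.{0}, ∃ (I : Type) (U : Ultrafilter I), IsEnlargement κ U ∧
    ∃ F G : Ultrafilter ℕ+, TildeDvd F G ∧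
      ∃ x ∈ monad U F, ∀ y ∈ monad U G, ¬ StarDvd x y := by
  intro κ
  classical
  obtain ⟨J, W, hW⟩ := exists_enlargement κ
  -- a nonprincipal ultrafilter of odd primes
  have hinf : oddPrimes.Infinite := by
    have h2 := Nat.infinite_setOfPred_prime.sdiff (Set.finite_singleton 2)
    refine Set.Infinite.of_image PNat.val (h2.mono ?_)
    rintro p ⟨hp, hp2⟩
    exact ⟨⟨p, hp.pos⟩, ⟨hp, hp2⟩, rfl⟩
  obtain ⟨F, hF1, hF2⟩ : ∃ F : Ultrafilter ℕ+, oddPrimes ∈ F ∧ ∀ n : ℕ+, {n} ∉ F := by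
    have hne : (Filter.cofinite ⊓ Filter.principal oddPrimes).NeBot := by
      rw [Filter.cofinite_inf_principal_neBot_iff]
      exact hinf
    obtain ⟨F, hF⟩ := Ultrafilter.exists_le (Filter.cofinite ⊓ Filter.principal oddPrimes)
    refine ⟨F, (hF.trans inf_le_right) (Filter.mem_principal_self _), fun n hn => ?_⟩
    have h1 : ({n} : Set ℕ+)ᶜ ∈ F :=
      (hF.trans inf_le_left) (Set.finite_singleton n).compl_mem_cofinite
    exact (Ultrafilter.compl_mem_iff_notMem.1 h1) hn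
  have hne : (L F).NeBot := by
    rw [Filter.neBot_iff]
    intro hbot
    have h0 : (∅ : Set (ℕ+ × ℕ)) ∈ L F := hbot ▸ Filter.mem_bot
    obtain ⟨N, hN⟩ := h0
    have h1 : {p : ℕ+ | (p : ℕ) + 1 ≤ N} ∈ F := by
      filter_upwards [hN] with p hp
      have h2 : {b : ℕ | b ≤ (p : ℕ) ∧ (p, b) ∉ (∅ : Set (ℕ+ × ℕ))} = Set.Iic (p : ℕ) := by
        ext b; simp
      have hp' : {b : ℕ | b ≤ (p : ℕ) ∧ (p, b) ∉ (∅ : Set (ℕ+ × ℕ))}.ncard ≤ N := hp
      rw [h2, Set.ncard_eq_toFinset_card', Set.toFinset_Iic, Nat.card_Iic] at hp'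
      exact hp'
    have h2 : {p : ℕ+ | (p : ℕ) + 1 ≤ N}.Finite := by
      refine Set.Finite.of_injOn (f := PNat.val) (t := Set.Iic N) ?_
        (PNat.coe_injective.injOn) (Set.finite_Iic N)
      intro p hp
      have : (p : ℕ) + 1 ≤ N := hp
      show (p : ℕ) ≤ N
      omega
    have h3 : {p : ℕ+ | (p : ℕ) + 1 ≤ N} = ⋃ y ∈ {p : ℕ+ | (p : ℕ) + 1 ≤ N}, {y} := by
      ext b; simp
    rw [h3] at h1
    obtain ⟨y, _, hy⟩ := (Ultrafilter.finite_biUnion_mem_iff h2).1 h1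
    exact hF2 y hy
  let T : Ultrafilter (ℕ+ × ℕ) := Ultrafilter.of (L F)
  have hT : (T : Filter (ℕ+ × ℕ)) ≤ L F := Ultrafilter.of_le _
  let φ : ℕ+ × ℕ → ℕ+ := fun q => q.1 * 2 ^ q.2
  let G : Ultrafilter ℕ+ := T.map φ
  -- three kinds of members of `T`
  have hT1 : ∀ A ∈ F, {q : ℕ+ × ℕ | q.1 ∈ A} ∈ T := by
    intro A hA
    apply hT
    refine ⟨0, Filter.mem_of_superset hA fun p hp => ?_⟩
    have : {b : ℕ | b ≤ (p : ℕ) ∧ (p, b) ∉ {q : ℕ+ × ℕ | q.1 ∈ A}} = ∅ := by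
      ext b; simp [hp]
    show {b : ℕ | b ≤ (p : ℕ) ∧ (p, b) ∉ {q : ℕ+ × ℕ | q.1 ∈ A}}.ncard ≤ 0
    rw [this, Set.ncard_empty]
  have hT2 : {q : ℕ+ × ℕ | q.2 ≤ (q.1 : ℕ)} ∈ T := by
    apply hT
    refine ⟨0, Filter.univ_mem' fun p => ?_⟩
    have : {b : ℕ | b ≤ (p : ℕ) ∧ (p, b) ∉ {q : ℕ+ × ℕ | q.2 ≤ (q.1 : ℕ)}} = ∅ := by
      ext b
      simp only [Set.mem_ofPred_eq, Set.mem_empty_iff_false, iff_false, not_and, not_not]
      exact fun h => h
    show {b : ℕ | b ≤ (p : ℕ) ∧ (p, b) ∉ {q : ℕ+ × ℕ | q.2 ≤ (q.1 : ℕ)}}.ncard ≤ 0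
    rw [this, Set.ncard_empty]
  have hT3 : ∀ k : ℕ+ → ℕ, {q : ℕ+ × ℕ | q.2 ≠ k q.1} ∈ T := by
    intro k
    apply hT
    refine ⟨1, Filter.univ_mem' fun p => ?_⟩
    have : {b : ℕ | b ≤ (p : ℕ) ∧ (p, b) ∉ {q : ℕ+ × ℕ | q.2 ≠ k q.1}} ⊆ {k p} := by
      rintro b ⟨_, hb⟩
      simp only [Set.mem_ofPred_eq, ne_eq, not_not] at hb
      exact hb
    have h2 := Set.ncard_le_ncard this (Set.finite_singleton _)
    rw [Set.ncard_singleton] at h2
    exact h2
  refine ⟨ℕ+ × J, prod F W, prod_enlargement F W hW, F, G, ?_, ?_⟩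
  · intro A hA
    show φ ⁻¹' (up A) ∈ T
    filter_upwards [hT1 A hA] with q hq
    exact ⟨q.1, hq, Dvd.intro _ rfl⟩
  · refine ⟨((fun i : ℕ+ × J => i.1 : ℕ+ × J → ℕ+) : (prod F W : Filter (ℕ+ × J)).Germ ℕ+),
      ?_, ?_⟩
    · intro A hA
      rw [coe_mem_star, eventually_prod]
      filter_upwards [hA] with m hm
      exact Filter.Eventually.of_forall fun _ => hm
    · intro y hy hdvd
      induction y using Germ.inductionOn with
      | h h =>
        have hd := starDvd_coe _ _ hdvd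
        rw [eventually_prod] at hd
        have hD : φ '' {q | q.1 ∈ oddPrimes ∧ q.2 ≤ (q.1 : ℕ)} ∈ G := by
          show φ ⁻¹' _ ∈ T
          filter_upwards [hT1 _ hF1, hT2] with q h1 h2
          exact ⟨q, ⟨h1, h2⟩, rfl⟩
        have hD2 := hy _ hD
        rw [coe_mem_star, eventually_prod] at hD2
        have hkey : ∀ᶠ m in (F : Filter ℕ+), ∃ b : ℕ, ∀ᶠ j in (W : Filter J),
            h (m, j) = m * 2 ^ b := by
          filter_upwards [hd, hD2, hF1] with m h1 h2 h3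
          have hfin : ((fun b : ℕ => m * 2 ^ b) '' Set.Iic (m : ℕ)).Finite :=
            (Set.finite_Iic _).image _
          obtain ⟨y, ⟨b, _, rfl⟩, hb⟩ := ev_const W (fun j => h (m, j)) hfin (by
            filter_upwards [h1, h2] with j h4 h5
            obtain ⟨⟨p, b⟩, ⟨hp, hb⟩, hpb⟩ := h5
            have hpb' : p * 2 ^ b = h (m, j) := hpb
            have h6 : m ∣ h (m, j) := h4
            rw [← hpb', PNat.dvd_iff] at h6
            have h7 : (m : ℕ) ∣ (p : ℕ) * 2 ^ b := by simpa using h6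
            have h8 : (m : ℕ) = p := by
              rcases (h3.1.dvd_mul).1 h7 with h9 | h9
              · exact (Nat.prime_dvd_prime_iff_eq h3.1 hp.1).1 h9
              · exact absurd ((Nat.prime_dvd_prime_iff_eq h3.1 Nat.prime_two).1
                  (h3.1.dvd_of_dvd_pow h9)) h3.2
            have h9 : m = p := PNat.coe_injective h8
            refine ⟨b, ?_, ?_⟩
            · show b ≤ (m : ℕ)
              rw [h9]; exact hb
            · show m * 2 ^ b = h (m, j)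
              rw [h9] at hpb' ⊢
              exact hpb')
          exact ⟨b, hb⟩
        let k : ℕ+ → ℕ := fun m =>
          if hm : ∃ b : ℕ, ∀ᶠ j in (W : Filter J), h (m, j) = m * 2 ^ b then hm.choose else 0
        have hk : ∀ᶠ m in (F : Filter ℕ+), ∀ᶠ j in (W : Filter J), h (m, j) = m * 2 ^ k m := by
          filter_upwards [hkey] with m hm
          have : k m = hm.choose := dif_pos hm
          rw [this]
          exact hm.choose_spec
        let Gr : Set ℕ+ := {n | ∃ m ∈ oddPrimes, n = m * 2 ^ k m}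
        have hGr : Grᶜ ∈ G := by
          show φ ⁻¹' _ ∈ T
          filter_upwards [hT1 _ hF1, hT3 k] with q h1 h2
          rintro ⟨m, hm, hq⟩
          obtain ⟨h3, h4⟩ := pw_inj h1 hm hq
          exact h2 (h3 ▸ h4)
        have h1 := hy _ hGr
        rw [coe_mem_star, eventually_prod] at h1
        obtain ⟨m, ⟨hm1, hm2⟩, hm3⟩ := Ultrafilter.nonempty_of_mem
          (Filter.inter_mem (Filter.inter_mem h1 hk) hF1)
        obtain ⟨j, hj1, hj2⟩ := Ultrafilter.nonempty_of_mem (Filter.inter_mem hm1 hm2)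
        exact hj1 ⟨m, hm3, hj2⟩

end Pool.Agent.Results.MP_2734af_lc.NoMultipleInMonad
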